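import Pool.Agent.Helper95.BG.Main

open Pool.Agent.Helper65.LinSpace Pool.Agent.Helper95.BG

namespace Pool.Agent.Helper95.Retired.BooleanGrammars

/-- **Boolean grammars do not generate all of linear space.** For every number `c` there are a
language `L` in `DSPACE(n)` and masks `s n` of length `n` such that `L` consists of the words `w`
whose inner product with `s |w|` is odd, and the following holds for every Boolean grammar `G` over
a finite alphabet, with the language `K` (in the semantics of the unique solution in the strong
sense or in the well-founded semantics), all letters `ι 0`, `ι 1`, and every function `f` which is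
computable in space `C (n + 1) ^ (1 - ε)` and has values of length
`|f w y| ≤ C (|w| + |y| + 1) ^ (3 / 2 - ε)`, `ε > 0`: there is a `c'` such that for all `n` and all
advice words `α`, the number of the words `w` of length `n` for which `w ∈ L` is equivalent to
`ι(w) f(w, α v) ∈ K` for some guess `v` of length at most `c n` differs from `2 ^ n / 2` by at most
`c' (min (|α|, n - |α|) + 1) 2 ^ ((n + |α|) / 2)`. In particular (`f` the empty word) `L` is not
generated by a Boolean grammar. -/
theorem result (c : ℕ) :
    ∃ (L : Set (List Bool)) (s : ℕ → List Bool), DLINSPACE L ∧ (∀ n, (s n).length = n) ∧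
      (∀ w, w ∈ L ↔ Odd ((List.zipWith and (s w.length) w).count true)) ∧
      ∀ (T : Type) [Finite T] (G : BooleanGrammar T) (K : Language T),
        (G.Generates K ∨ K = G.wellFounded G.start) →
        ∀ (ι : Bool → T) (f : List Bool → List Bool → List T) (C ε : ℝ), 0 < ε →
        Computable (fun n => C * ((n : ℝ) + 1) ^ (1 - ε)) f →
        (∀ w y, ((f w y).length : ℝ) ≤ C * ((w.length : ℝ) + y.length + 1) ^ (3 / 2 - ε)) →
        ∃ c' : ℝ, ∀ (n : ℕ) (α : List Bool),
          |({w : List Bool | w.length = n ∧ (w ∈ L ↔ ∃ v : List Bool, v.length ≤ c * n ∧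
            w.map ι ++ f w (α ++ v) ∈ K)}.ncard : ℝ) - 2 ^ n / 2| ≤
            c' * ((min α.length (n - α.length) : ℕ) + 1) * 2 ^ (((n : ℝ) + α.length) / 2) :=
  main c

end Pool.Agent.Helper95.Retired.BooleanGrammars
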