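import Pool.Agent.Helper95.Div.RothCor

/-!
# Lang's inequality for almost all division points of an algebraic number

Let `ξ` be a real algebraic irrational number.  For every `A` and every `α < 1`, for all large
`m` and every integer `a` with `1 ≤ |a| ≤ m ^ α`, all but `C c σ(m)` of the `m` numbers
`(a ξ + j) / m`, `0 ≤ j < m`, satisfy Lang's inequality with constant `c` for all
`2 ≤ q ≤ m ^ A`.
-/

set_option autoImplicit false

namespace Pool.Agent.Results.MP_c307ca_nt.DivisionPoints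

open Filter

/-- Let `ε > 0`.  There is `C`, depending on `ε` only, with the following property.  Let `ξ` be a
real algebraic irrational number, `A` a real number, `α < 1` and `c > 0`.  Then for all large `m`
and all integers `a` with `1 ≤ |a| ≤ m ^ α`, the number of `j ∈ {0, …, m - 1}` for which there are
`p` and `2 ≤ q ≤ m ^ A` with `|(a ξ + j) / m - p / q| ≤ c / (q ^ 2 (log q) ^ (1 + ε))` is at most
`C c σ(m)`, where `σ(m)` is the sum of the divisors of `m`. -/
theorem result (ε : ℝ) (hε : 0 < ε) :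
    ∃ C : ℝ, ∀ ξ : ℝ, IsAlgebraic ℚ ξ → Irrational ξ →
      ∀ A α c : ℝ, α < 1 → 0 < c →
      ∀ᶠ m : ℕ in atTop, ∀ a : ℤ, 1 ≤ |a| → |(a : ℝ)| ≤ (m : ℝ) ^ α →
        (({j : ℕ | j < m ∧ ∃ (p : ℤ) (q : ℕ), 2 ≤ q ∧ (q : ℝ) ≤ (m : ℝ) ^ A ∧
            |((a : ℝ) * ξ + (j : ℝ)) / (m : ℝ) - (p : ℝ) / (q : ℝ)|
              ≤ c / ((q : ℝ) ^ 2 * (Real.log (q : ℝ)) ^ (1 + ε))}).ncard : ℝ)
          ≤ C * c * ((∑ g ∈ m.divisors, g : ℕ) : ℝ) := by
  refine ⟨8 * Helper95.Div.W ε * Helper95.Div.Z ε + 1, ?_⟩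
  intro ξ hξ hirr A α c hα hc
  set δ := (1 - α) / (2 * (|A| + 1)) with hδ
  have hA1 : 0 < |A| + 1 := by positivity
  have hα1 : 0 < 1 - α := by linarith
  have hδ0 : 0 < δ := by positivity
  obtain ⟨c₀, hc₀, hlow⟩ := Helper95.Div.roth_low hξ hirr hδ0
  have hexp : A * ((1 + δ) - 1) + α * (1 + δ) < 1 + δ := by
    have h1 : A * δ ≤ (1 - α) / 2 := by
      have h2 : A * δ ≤ (|A| + 1) * δ :=
        mul_le_mul_of_nonneg_right (by linarith [le_abs_self A]) hδ0.le
      have h3 : (|A| + 1) * δ = (1 - α) / 2 := by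
        rw [hδ]
        field_simp
      linarith
    nlinarith [mul_pos hα1 hδ0]
  filter_upwards [Helper95.Div.exponent_case hε (by linarith) hc₀ hlow hc hexp] with m hm a ha haα
  have h := hm a ha haα
  rw [ArithmeticFunction.sigma_one_apply] at h
  exact h

end Pool.Agent.Results.MP_c307ca_nt.DivisionPoints
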